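import Pool.Agent.Helper51.LT.St

/-!
Project LT (MP_d6acc2_an), module ANN: integral over an annulus in polar coordinates.
-/

set_option autoImplicit false

namespace Pool.Agent.Helper99.LT

open Pool.Agent.Helper51.LT
open Complex MeasureTheory Set Metric Filter Topology
open scoped Real ENNReal

theorem inner_bound (δ C₀ ρ : ℝ) (g : ℂ → ℂ) (hU : Unf δ C₀) (hg : BU g) (h0 : 0 < ρ)
    (h1 : ρ < 1) :
    ∫⁻ θ in Ioo (-π) π, ENNReal.ofReal ‖deriv g (circleMap 0 ρ θ)‖
      ≤ ENNReal.ofReal (C₀ * (1 - ρ) ^ (-δ)) := by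
  have hder : ContinuousOn (deriv g) (ball 0 1) :=
    ((hg.1.1.analyticOnNhd isOpen_ball).deriv).continuousOn
  have hcont : Continuous fun θ : ℝ => ‖deriv g (circleMap 0 ρ θ)‖ := by
    refine (hder.comp_continuous (continuous_circleMap 0 ρ) fun θ => ?_).norm
    rw [mem_ball_zero_iff, norm_circleMap_zero, abs_of_pos h0]
    exact h1
  have hper : Function.Periodic (fun θ : ℝ => ‖deriv g (circleMap 0 ρ θ)‖) (2 * π) := by
    intro θ
    simp only
    rw [periodic_circleMap 0 ρ θ]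
  have hIM : IM g ρ = ∫ θ in Ioo (-π) π, ‖deriv g (circleMap 0 ρ θ)‖ := by
    unfold IM
    have h2 := hper.intervalIntegral_add_eq 0 (-π)
    rw [zero_add, show -π + 2 * π = π by ring] at h2
    rw [h2, intervalIntegral.integral_of_le (by linarith [Real.pi_pos]),
      integral_Ioc_eq_integral_Ioo]
  have hint : IntegrableOn (fun θ : ℝ => ‖deriv g (circleMap 0 ρ θ)‖) (Ioo (-π) π) :=
    (hcont.integrableOn_Icc).mono_set Ioo_subset_Icc_self
  rw [← ofReal_integral_eq_lintegral_ofReal hint (Eventually.of_forall fun θ => norm_nonneg _),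
    ← hIM]
  exact ENNReal.ofReal_le_ofReal (hU g hg ρ h0 h1)

theorem hAnn : StAnn := by
  intro δ C₀ s g hδ0 hδ1 hC hU hg hs hs8
  set A : Set ℂ := {z : ℂ | 1 - 4 * s ≤ ‖z‖ ∧ ‖z‖ ≤ 1 - s / 10} with hA
  have hAm : MeasurableSet A := by
    rw [hA]
    exact (measurableSet_le measurable_const measurable_norm).inter
      (measurableSet_le measurable_norm measurable_const)
  set c : ℝ := C₀ * (s / 10) ^ (-δ) with hc
  have hc0 : 0 ≤ c := by positivity
  rw [← lintegral_indicator hAm, ← Complex.lintegral_comp_polarCoord_symm]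
  have htar : polarCoord.target = Ioi (0 : ℝ) ×ˢ Ioo (-π) π := polarCoord_target
  rw [htar, Measure.volume_eq_prod, ← Measure.prod_restrict]
  refine (lintegral_prod_le _).trans ?_
  have hstep : ∀ ρ ∈ Ioi (0 : ℝ),
      ∫⁻ θ in Ioo (-π) π, ENNReal.ofReal ρ •
        A.indicator (fun z => ENNReal.ofReal ‖deriv g z‖) (Complex.polarCoord.symm (ρ, θ))
      ≤ (Icc (1 - 4 * s) (1 - s / 10)).indicator (fun _ => ENNReal.ofReal c) ρ := by
    intro ρ hρ
    have hρ0 : 0 < ρ := hρ
    have hsymm : ∀ θ : ℝ, Complex.polarCoord.symm (ρ, θ) = circleMap 0 ρ θ := by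
      intro θ
      rw [Complex.polarCoord_symm_apply, circleMap, zero_add, Complex.exp_mul_I]
      push_cast
      ring
    by_cases h : ρ ∈ Icc (1 - 4 * s) (1 - s / 10)
    · rw [indicator_of_mem h]
      have h1 : ρ < 1 := by linarith [h.2]
      have h2 : ∫⁻ θ in Ioo (-π) π, ENNReal.ofReal ρ •
          A.indicator (fun z => ENNReal.ofReal ‖deriv g z‖) (Complex.polarCoord.symm (ρ, θ))
          ≤ ∫⁻ θ in Ioo (-π) π, ENNReal.ofReal ‖deriv g (circleMap 0 ρ θ)‖ := by
        refine lintegral_mono fun θ => ?_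
        rw [hsymm θ, smul_eq_mul]
        calc ENNReal.ofReal ρ * A.indicator (fun z => ENNReal.ofReal ‖deriv g z‖) (circleMap 0 ρ θ)
            ≤ 1 * ENNReal.ofReal ‖deriv g (circleMap 0 ρ θ)‖ := by
              refine mul_le_mul' ?_ (indicator_le_self _ _ _)
              rw [← ENNReal.ofReal_one]
              exact ENNReal.ofReal_le_ofReal h1.le
          _ = _ := one_mul _
      refine h2.trans ((inner_bound δ C₀ ρ g hU hg hρ0 h1).trans ?_)
      refine ENNReal.ofReal_le_ofReal ?_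
      rw [hc]
      refine mul_le_mul_of_nonneg_left ?_ hC
      exact Real.rpow_le_rpow_of_nonpos (by positivity) (by linarith [h.2]) (by linarith)
    · rw [indicator_of_notMem h]
      have h2 : ∀ θ : ℝ, ENNReal.ofReal ρ •
          A.indicator (fun z => ENNReal.ofReal ‖deriv g z‖) (Complex.polarCoord.symm (ρ, θ)) = 0 := by
        intro θ
        rw [hsymm θ, indicator_of_notMem, smul_zero]
        intro hmem
        rw [hA, mem_ofPred_eq, norm_circleMap_zero, abs_of_pos hρ0] at hmem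
        exact h hmem
      simp only [h2, lintegral_zero, le_refl]
  refine (setLIntegral_mono' measurableSet_Ioi hstep).trans ?_
  refine (lintegral_mono' Measure.restrict_le_self le_rfl).trans ?_
  rw [lintegral_indicator measurableSet_Icc, lintegral_const, Measure.restrict_apply_univ,
    Real.volume_Icc, ← ENNReal.ofReal_mul hc0]
  refine ENNReal.ofReal_le_ofReal ?_
  have h10 : (s / 10) ^ (-δ) = s ^ (-δ) * 10 ^ δ := by
    rw [Real.div_rpow hs.le (by norm_num), Real.rpow_neg (by norm_num : (0 : ℝ) ≤ 10), div_inv_eq_mul]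
  have h10' : (10 : ℝ) ^ δ ≤ 10 := by
    calc (10 : ℝ) ^ δ ≤ 10 ^ (1 : ℝ) := Real.rpow_le_rpow_of_exponent_le (by norm_num) hδ1
      _ = 10 := Real.rpow_one _
  have hs1 : s ^ (1 - δ) = s ^ (-δ) * s := by
    rw [show 1 - δ = -δ + 1 by ring, Real.rpow_add_one hs.ne']
  rw [hc, h10, hs1]
  have hp : 0 ≤ s ^ (-δ) := Real.rpow_nonneg hs.le _
  have e1 : 1 - s / 10 - (1 - 4 * s) ≤ 4 * s := by linarith
  calc C₀ * (s ^ (-δ) * 10 ^ δ) * (1 - s / 10 - (1 - 4 * s))
      ≤ C₀ * (s ^ (-δ) * 10 ^ δ) * (4 * s) := mul_le_mul_of_nonneg_left e1 (by positivity)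
    _ ≤ C₀ * (s ^ (-δ) * 10) * (4 * s) := by gcongr
    _ = 40 * C₀ * (s ^ (-δ) * s) := by ring

end Pool.Agent.Helper99.LT
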