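import Pool.Agent.Helper69.LT.St
import Pool.Agent.Helper84.LE.BGR
import Pool.Agent.Helper84.LE.BWT
import Pool.Agent.Helper84.LE.BKP

/-! MP_65faa7, project LT: module Sum0. -/

set_option autoImplicit false
set_option linter.unusedSectionVars false

open scoped BigOperators ENNReal
open Pool.LE Pool.NL

namespace Pool.LT
namespace Sum0M

variable {V : Type} [DecidableEq V]

theorem Nl_zero (a : DualNumber ℝ) : Nl 0 a = ENNReal.ofReal |a.fst| := by
  unfold Nl
  rw [zero_mul, add_zero]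

theorem vA_self {R : Type} [CommRing R] (L : Finset V) (r : V → R) (ω : Finset (Sym2 V)) (v x : V)
    [Decidable (dbl ω v x)] : vA L r ω {v} v x = if dbl ω v x then mT L r ω v x else 0 := by
  have h0 : ∀ (ω : Finset (Sym2 V)) (y : V), mA L r ω {v} v y = 0 := fun ω y => by
    unfold mA
    rw [if_pos (Set.mem_singleton v)]
  unfold vA
  rw [Finset.sum_eq_zero (fun cb _ => by
    rw [h0]
    split_ifs <;> simp), h0, add_zero, sub_zero]
  by_cases hd : dbl ω v x
  · rw [if_pos hd, if_pos hd]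
  · rw [if_neg hd, if_neg hd]

theorem dbl_self (ω : Finset (Sym2 V)) (v : V) : dbl ω v v :=
  ⟨con_refl _ _, fun _ _ => con_refl _ _⟩

/-- the value of `WT` at the diagonal -/
theorem WT_diag (hNl : SNl) (hPr : SProd) (L : Finset V) (ρ k : V → ℝ) (E : Finset (Sym2 V))
    (p : ℝ) (v : V) (hρ : ∀ y, 0 ≤ ρ y ∧ ρ y ≤ 1) :
    (WT E p L (dw ρ k) {v} v v).fst = Ex E p (fun ω => pw L ρ ω v) := by
  obtain ⟨-, -, -, -, -, -, -, -, -, h10⟩ := hNl 0
  unfold WT
  rw [(h10 V E p _).1]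
  refine Ex_congr fun ω _ => ?_
  classical
  rw [vA_self, if_pos (dbl_self ω v), (hPr V L ρ k ω v v {v} hρ).1]
  unfold ind
  rw [if_pos (con_refl ω v), one_mul]

theorem Ex_le_one (hPr : SProd) (L : Finset V) (ρ k : V → ℝ) (E : Finset (Sym2 V))
    (p : ℝ) (h0 : 0 ≤ p) (h1 : p ≤ 1) (v : V) (hρ : ∀ y, 0 ≤ ρ y ∧ ρ y ≤ 1) :
    Ex E p (fun ω => pw L ρ ω v) ≤ 1 := by
  have h : Ex E p (fun ω => pw L ρ ω v) ≤ Ex E p (fun _ => (1 : ℝ)) := by
    unfold Ex
    refine Finset.sum_le_sum fun ω _ => ?_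
    rw [smul_eq_mul, smul_eq_mul]
    exact mul_le_mul_of_nonneg_left (hPr V L ρ k ω v v {v} hρ).2.2.2.1 (wt_nonneg h0 h1 E ω)
  rwa [Ex_const] at h

/-- the value of `WT` off the diagonal -/
theorem WT_off (hNl : SNl) (hPr : SProd) (L : Finset V) (ρ k : V → ℝ) (E : Finset (Sym2 V))
    (p : ℝ) (h0 : 0 ≤ p) (h1 : p ≤ 1) (v x : V) (hρ : ∀ y, 0 ≤ ρ y ∧ ρ y ≤ 1) :
    ENNReal.ofReal |(WT E p L (dw ρ k) {v} v x).fst| ≤ Pr E p (fun ω => dbl ω v x) := by
  obtain ⟨h20, -, -, -, -, -, -, -, h9, -⟩ := hNl 0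
  rw [← Nl_zero]
  unfold WT
  refine (h9 V E p _ h0 h1).trans ?_
  unfold Pr
  refine ExE_mono fun ω _ => ?_
  classical
  rw [vA_self]
  by_cases hd : dbl ω v x
  · rw [if_pos hd, if_pos hd, Nl_zero]
    have h := (hPr V L ρ k ω v x {v} hρ).2.2.2.2.1
    rw [abs_of_nonneg h.1]
    exact ENNReal.ofReal_le_one.2 h.2
  · rw [if_neg hd, if_neg hd, h20]

/-- the double connection term -/
theorem dbl_term {T K q : V → V → ENNReal} {B eps eta : ENNReal} {D : ℕ} {E : Finset (Sym2 V)}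
    {p : ℝ} {L : Finset V} {k : V → ℝ} {nbf : V → Finset V}
    (hE : Env0 E p L T K q nbf k B eps eta D) (v : V) :
    ∑' x : V, q v x * (T v x * ∑ b ∈ nbf v, ENNReal.ofReal p * T b x) ≤ eps := by
  have hTkc : ∀ x y, T x y ≤ kc T T x y := fun x y => le_kc_self hE.one_le x y
  have hqT : ∀ x y, q x y * T x y ≤ K x y := fun x y =>
    (mul_le_mul' le_rfl (hTkc x y)).trans (hE.wk.le_K x y)
  have hTK : ∀ x y, T x y ≤ K x y := fun x y => by
    refine le_trans ?_ (hqT x y)
    calc T x y = 1 * T x y := (one_mul _).symm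
      _ ≤ q x y * T x y := mul_le_mul' (hE.wk.one_le_q x y) le_rfl
  have hK1 : ∀ x, 1 ≤ K x x := fun x => (hE.one_le x).trans (hTK x x)
  have h1 : ∀ x, q v x * (T v x * ∑ b ∈ nbf v, ENNReal.ofReal p * T b x) ≤
      ∑ b ∈ nbf v, ENNReal.ofReal p * (K b x * K x v) := by
    intro x
    rw [← mul_assoc]
    calc q v x * T v x * ∑ b ∈ nbf v, ENNReal.ofReal p * T b x
        ≤ K v x * ∑ b ∈ nbf v, ENNReal.ofReal p * K b x := by
          refine mul_le_mul' (hqT v x) (Finset.sum_le_sum fun b _ => mul_le_mul' le_rfl (hTK b x))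
      _ = ∑ b ∈ nbf v, ENNReal.ofReal p * (K b x * K x v) := by
          rw [Finset.mul_sum]
          refine Finset.sum_congr rfl fun b _ => ?_
          rw [hE.wk.K_symm v x]
          ring
  calc ∑' x : V, q v x * (T v x * ∑ b ∈ nbf v, ENNReal.ofReal p * T b x)
      ≤ ∑' x : V, ∑ b ∈ nbf v, ENNReal.ofReal p * (K b x * K x v) := ENNReal.tsum_le_tsum h1
    _ = ∑ b ∈ nbf v, ∑' x : V, ENNReal.ofReal p * (K b x * K x v) :=
        Summable.tsum_finsetSum (fun _ _ => ENNReal.summable)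
    _ = ∑ b ∈ nbf v, ENNReal.ofReal p * kp K 2 b v := by
        refine Finset.sum_congr rfl fun b _ => ?_
        rw [ENNReal.tsum_mul_left, kp_two]
        rfl
    _ ≤ ∑ b ∈ nbf v, ENNReal.ofReal p * kp K 32 b v :=
        Finset.sum_le_sum fun b _ => mul_le_mul' le_rfl (kp_le_kp hK1 (by norm_num) b v)
    _ ≤ eps := hE.heps v v

/-- the higher terms -/
theorem high_term (hMaj : SMaj) (hMaj0 : SMaj0) {T K q : V → V → ENNReal} {B eps eta : ENNReal}
    {D : ℕ} {E : Finset (Sym2 V)} {p : ℝ} {L : Finset V} {ρ k : V → ℝ} {nbf : V → Finset V}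
    (hE : Env0 E p L T K q nbf k B eps eta D) (hρ : ∀ y, 0 ≤ ρ y ∧ ρ y ≤ 1) (N : ℕ) :
    Maj K q 0 ((Lop E p L (dw ρ k))^[N] (WT E p L (dw ρ k))) (10 * B ^ 2 * (40 * B * eps) ^ N) := by
  induction N with
  | zero =>
    have h := (hMaj0 V L ρ k 0 E p T K q nbf B eps eta D hE hρ).1
    rw [mul_zero, zero_mul, add_zero, mul_one] at h
    rw [pow_zero, mul_one]
    exact h
  | succ N ih =>
    have hq : ∀ (v u b : V) (x : V), b ∈ nbf u → q v x ≤ 4 * q v u * q b x := by
      intro v u b x hb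
      calc q v x ≤ q v u * q u x := hE.wk.q_mul v u x
        _ ≤ q v u * (q u b * q b x) := mul_le_mul' le_rfl (hE.wk.q_mul u b x)
        _ ≤ q v u * (4 * q b x) := mul_le_mul' le_rfl (mul_le_mul' (hE.q4 u b hb) le_rfl)
        _ = 4 * q v u * q b x := by ring
    have h := hMaj V L ρ k 0 E p T K q nbf B eps eta D hE hρ V q hq _ _ ih
    rw [mul_zero, zero_mul, add_zero, mul_one] at h
    have e : (10 * B ^ 2 * (40 * B * eps) ^ (N + 1) : ENNReal) =
        10 * B ^ 2 * (40 * B * eps) ^ N * (40 * B * eps) := by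
      rw [pow_succ (40 * B * eps) N, ← mul_assoc]
    rw [Function.iterate_succ', Function.comp_apply, e]
    exact h

theorem geom (M : ℕ) : ∑ N ∈ Finset.range M, (1 / 2 : ENNReal) ^ N ≤ 2 := by
  refine (ENNReal.sum_le_tsum _).trans ?_
  rw [ENNReal.tsum_geometric, one_div, ENNReal.one_sub_inv_two, inv_inv]

end Sum0M

open Sum0M

theorem hSum0 : SNl → SProd → SVan → SMaj → SMaj0 → SDbl → SSum0 := by
  intro hNl hPr _ hMaj hMaj0 hDbl V _ L ρ k E p T K q nbf B eps eta D hE hρ hB heps M v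
  classical
  have h0 := hE.p0
  have hp := hE.p1
  have h1 : p ≤ 1 := by linarith
  have hTkc : ∀ x y, T x y ≤ kc T T x y := fun x y => le_kc_self hE.one_le x y
  have hK1 : ∀ x, 1 ≤ K x x := fun x => by
    refine le_trans ?_ (hE.wk.le_K x x)
    calc (1 : ENNReal) = 1 * 1 := (one_mul _).symm
      _ ≤ q x x * kc T T x x := mul_le_mul' (hE.wk.one_le_q x x) ((hE.one_le x).trans (hTkc x x))
  set a : ℕ → V → DualNumber ℝ := fun N x =>
    ((Lop E p L (dw ρ k))^[N] (WT E p L (dw ρ k))) {v} v x with ha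
  -- pointwise
  have hpt : ∀ x : V, ENNReal.ofReal |(gM E p L (dw ρ k) M v x).fst - if x = v then 1 else 0| ≤
      ENNReal.ofReal |(WT E p L (dw ρ k) {v} v x).fst - if x = v then 1 else 0| +
        ∑ N ∈ Finset.range M, Nl 0 (a (N + 1) x) := by
    intro x
    obtain ⟨-, -, -, -, -, -, h7, h8, -, -⟩ := hNl 0
    have e1 : gM E p L (dw ρ k) M v x = (∑ N ∈ Finset.range M, (-1) ^ (N + 1) * a (N + 1) x) +
        WT E p L (dw ρ k) {v} v x := by
      unfold gM
      rw [Finset.sum_range_succ', pow_zero, one_mul]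
      rfl
    have e2 : (gM E p L (dw ρ k) M v x).fst - (if x = v then 1 else 0) =
        ((WT E p L (dw ρ k) {v} v x).fst - if x = v then 1 else 0) +
          (∑ N ∈ Finset.range M, (-1) ^ (N + 1) * a (N + 1) x).fst := by
      rw [e1, TrivSqZeroExt.fst_add]
      ring
    rw [e2]
    refine (ENNReal.ofReal_le_ofReal (abs_add_le _ _)).trans ?_
    rw [ENNReal.ofReal_add (abs_nonneg _) (abs_nonneg _)]
    refine add_le_add le_rfl ?_
    rw [← Nl_zero]
    refine (h8 ℕ (Finset.range M) _).trans (le_of_eq ?_)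
    exact Finset.sum_congr rfl fun N _ => h7 _ _
  -- the first term
  have hfst : ∀ x : V, q v x * ENNReal.ofReal |(WT E p L (dw ρ k) {v} v x).fst -
      if x = v then 1 else 0| ≤
      (if x = v then q v v * ENNReal.ofReal (1 - Ex E p (fun ω => pw L ρ ω v)) else 0) +
        q v x * (T v x * ∑ b ∈ nbf v, ENNReal.ofReal p * T b x) := by
    intro x
    by_cases hx : x = v
    · subst hx
      rw [if_pos rfl, if_pos rfl, WT_diag hNl hPr L ρ k E p x hρ, abs_sub_comm,
        abs_of_nonneg (sub_nonneg.2 (Ex_le_one hPr L ρ k E p h0 h1 x hρ))]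
      exact le_self_add
    · rw [if_neg hx, if_neg hx, sub_zero, zero_add]
      refine mul_le_mul' le_rfl ((WT_off hNl hPr L ρ k E p h0 h1 v x hρ).trans ?_)
      exact hDbl V E p T nbf h0 hp hE.dom hE.nbE v x hx
  have hN0 : ∑' x : V, q v x * ENNReal.ofReal |(WT E p L (dw ρ k) {v} v x).fst -
      if x = v then 1 else 0| ≤
      q v v * ENNReal.ofReal (1 - Ex E p (fun ω => pw L ρ ω v)) + eps := by
    refine (ENNReal.tsum_le_tsum hfst).trans ?_
    rw [ENNReal.tsum_add, tsum_ite_eq]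
    exact add_le_add le_rfl (dbl_term hE v)
  -- the higher terms
  have hN1 : ∀ N : ℕ, ∑' x : V, q v x * Nl 0 (a (N + 1) x) ≤
      10 * B ^ 3 * (40 * B * eps) * (1 / 2) ^ N := by
    intro N
    have h := high_term hMaj hMaj0 hE hρ (N + 1) {v} v
    refine h.trans ?_
    have e : (∑' s : V, if s ∈ ({v} : Set V) then
        10 * B ^ 2 * (40 * B * eps) ^ (N + 1) * kp K 24 v s else 0) =
        10 * B ^ 2 * (40 * B * eps) ^ (N + 1) * kp K 24 v v := by
      rw [tsum_eq_single v]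
      · rw [if_pos (Set.mem_singleton v)]
      · intro s hs
        rw [if_neg (by simpa using hs)]
    refine (le_of_eq ?_).trans ((le_of_eq e).trans ?_)
    · exact tsum_congr fun s => by congr
    · have hk : kp K 24 v v ≤ B := (kp_le_kp hK1 (by norm_num) v v).trans (hE.wk.le_B v v)
      calc 10 * B ^ 2 * (40 * B * eps) ^ (N + 1) * kp K 24 v v
          ≤ 10 * B ^ 2 * ((1 / 2) ^ N * (40 * B * eps)) * B := by
            refine mul_le_mul' (mul_le_mul' le_rfl ?_) hk
            rw [pow_succ]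
            exact mul_le_mul' (pow_le_pow_left' heps N) le_rfl
        _ = 10 * B ^ 3 * (40 * B * eps) * (1 / 2) ^ N := by ring
  calc ∑' x : V, q v x * ENNReal.ofReal |(gM E p L (dw ρ k) M v x).fst - if x = v then 1 else 0|
      ≤ ∑' x : V, (q v x * ENNReal.ofReal |(WT E p L (dw ρ k) {v} v x).fst -
          if x = v then 1 else 0| + ∑ N ∈ Finset.range M, q v x * Nl 0 (a (N + 1) x)) := by
        refine ENNReal.tsum_le_tsum fun x => ?_
        rw [← Finset.mul_sum, ← mul_add]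
        exact mul_le_mul' le_rfl (hpt x)
    _ = ∑' x : V, q v x * ENNReal.ofReal |(WT E p L (dw ρ k) {v} v x).fst -
          if x = v then 1 else 0| + ∑ N ∈ Finset.range M, ∑' x : V, q v x * Nl 0 (a (N + 1) x) := by
        rw [ENNReal.tsum_add, Summable.tsum_finsetSum (fun _ _ => ENNReal.summable)]
    _ ≤ (q v v * ENNReal.ofReal (1 - Ex E p (fun ω => pw L ρ ω v)) + eps) +
          ∑ N ∈ Finset.range M, 10 * B ^ 3 * (40 * B * eps) * (1 / 2) ^ N :=
        add_le_add hN0 (Finset.sum_le_sum fun N _ => hN1 N)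
    _ = q v v * ENNReal.ofReal (1 - Ex E p (fun ω => pw L ρ ω v)) +
          (eps + 10 * B ^ 3 * (40 * B * eps) * ∑ N ∈ Finset.range M, (1 / 2 : ENNReal) ^ N) := by
        rw [Finset.mul_sum, add_assoc]
    _ ≤ q v v * ENNReal.ofReal (1 - Ex E p (fun ω => pw L ρ ω v)) +
          (1 * B ^ 4 * eps + 10 * B ^ 3 * (40 * B * eps) * 2) := by
        refine add_le_add le_rfl (add_le_add ?_ (mul_le_mul' le_rfl (geom M)))
        calc eps = 1 * 1 * eps := by rw [one_mul, one_mul]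
          _ ≤ 1 * B ^ 4 * eps := mul_le_mul' (mul_le_mul' le_rfl (one_le_pow₀ hB)) le_rfl
    _ = q v v * ENNReal.ofReal (1 - Ex E p (fun ω => pw L ρ ω v)) + 801 * B ^ 4 * eps := by
        congr 1
        ring
    _ ≤ q v v * ENNReal.ofReal (1 - Ex E p (fun ω => pw L ρ ω v)) + 1000 * B ^ 4 * eps := by
        refine add_le_add le_rfl (mul_le_mul' (mul_le_mul' ?_ le_rfl) le_rfl)
        norm_num

end Pool.LT
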